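import Pool.Agent.Q44.TK.Sepb
import Pool.Agent.Q44.TK.Low3

/-!
# The Tate-Shafarevich groups of simultaneous twists of arbitrary elliptic curves with exactly one rational
# point of order two

Let `E_k : y² = x³ + a_k x² + b_k x`, `k = 1, …, M`, be any curves with integral coefficients such that for
some prime `q` none of the `2 M` numbers `b_k`, `a_k² - 4 b_k` is a square modulo `q`. The curves need not
be isogenous or twists of each other. The common class consists of the squarefree integers `D` all of whose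
prime factors are active for all the curves or passive for all the curves. Let `m_1, …, m_M` be members of
the class. The twist of `E_k` by `m_k D` is `y² = x³ + a_k m_k D x² + b_k (m_k D)² x`.

The results:

* the two isogeny Selmer groups of the twist of `E_k` by `m_k D` have the orders `# U_k 2 ^ r_k(D)` and
  `# U'_k 2 ^ r_k(D)`, with the corank `r_k(D)` of an explicit matrix over `𝔽₂` and with finite groups
  `U_k`, `U'_k` which only depend on the local class of `D` (the class modulo squares modulo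
  `8 |∏ b_j (a_j² - 4 b_j)|`);
* bounds from both sides: `# U'_k 2 ^ r_k ≤ 2 · 2 ^ rank · # Ш[2]` and
  `4 · 2 ^ rank · # Ш[2] ≤ # U_k # U'_k 4 ^ r_k`;
* the dichotomy: if `|m_k| = |m_l|` and the quartics `y⁴ + a_k y² + b_k`, `y⁴ + a_l y² + b_l` have roots
  modulo the same active primes, then `r_k(D) = r_l(D)` for all `D`. If this happens for no pair `k ≠ l`,
  then the numbers `r_1(D), …, r_M(D)` are independent with the law `α`, for the `D` of every local class;
* every local class has a positive proportion of the class, the size of which is at least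
  `c X (log X) ^ (δ - 1)`;
* in a local class with `# U_k = # U'_k = 2` for all `k`: the proportion of the `D` for which all the
  twisted curves have rank `0` and no elements of `2`-power order in their Tate-Shafarevich groups is
  exactly `κ ^ M`;
* more generally all patterns occur: for each set `J` of indices and each `T` a positive proportion of the
  `D` has `2 ^ rank · # Ш[2] ≥ 2 ^ T` for the `k` in `J`, and rank `0` and trivial `Ш[2^∞]` for the `k`
  not in `J`.
-/

set_option autoImplicit false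

open Finset Filter

namespace Pool.Agent.Results.MP_a3f657_nt.ArbitraryCurves

/-! ### one curve -/

/-- the curve `y² = x³ + A x² + B x` over `ℚ` -/
def E (A B : ℤ) : WeierstrassCurve ℚ :=
  { a₁ := 0, a₂ := (A : ℚ), a₃ := 0, a₄ := (B : ℚ), a₆ := 0 }

/-- the rank of the group of rational points of `y² = x³ + A x² + B x` -/
noncomputable def rank (A B : ℤ) : ℕ := Module.finrank ℤ (E A B).toAffine.Point

open Classical in
/-- the `2`-torsion of the Tate-Shafarevich group of `y² = x³ + A x² + B x` -/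
def ShaTwo (A B : ℤ) : Type := {x : Pool.Agent.W262.SH.Sha (E A B) // x + x = 0}

open Classical in
/-- the rank of `y² = x³ + A x² + B x` is `0` and its Tate-Shafarevich group contains no element of
`2`-power order different from `0` -/
def Trivial (A B : ℤ) : Prop :=
  rank A B = 0 ∧ ∀ (x : Pool.Agent.W262.SH.Sha (E A B)) (n : ℕ), 2 ^ n • x = 0 → x = 0

/-- `z` is, up to squares, the abscissa of a point over `F` of `y² = x³ + A x² + B x` -/
def Loc (F : Type) [Field F] (A B z : ℤ) : Prop :=
  ∃ x y r : F, x ≠ 0 ∧ y ^ 2 = x ^ 3 + (A : F) * x ^ 2 + (B : F) * x ∧ x = (z : F) * r ^ 2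

/-- the Selmer group of the isogeny of degree two onto `y² = x³ + A x² + B x`, a subgroup of `ℚ*/ℚ*²`
which is described by squarefree integers -/
def Sel (A B : ℤ) : Set ℤ :=
  {z | Squarefree z ∧ (∀ (p : ℕ) [Fact p.Prime], Loc ℚ_[p] A B z) ∧ Loc ℝ A B z}

/-- the Selmer group of the isogeny onto `E_D : y² = x³ + a D x² + b D² x` -/
def SelDual (a b D : ℤ) : Set ℤ := Sel (a * D) (b * D ^ 2)

/-- the Selmer group of the isogeny from `E_D` onto
`E_D' : y² = x³ - 2 a D x² + (a² - 4 b) D² x` -/
def SelPhi (a b D : ℤ) : Set ℤ := Sel (-2 * a * D) ((a ^ 2 - 4 * b) * D ^ 2)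

/-- the classes which are supported on the primes dividing `2 b (a² - 4 b)` and satisfy the local
conditions of the Selmer group of the isogeny onto `E_D` at these primes and at the infinite place -/
def U (a b D : ℤ) : Set ℤ :=
  {u | Squarefree u ∧ (∀ p : ℕ, p.Prime → (p : ℤ) ∣ u → (p : ℤ) ∣ 2 * (b * (a ^ 2 - 4 * b))) ∧
    (∀ (p : ℕ) [Fact p.Prime], (p : ℤ) ∣ 2 * (b * (a ^ 2 - 4 * b)) →
      Loc ℚ_[p] (a * D) (b * D ^ 2) u) ∧ Loc ℝ (a * D) (b * D ^ 2) u}

/-- the same for the isogeny from `E_D` onto `E_D'` -/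
def U' (a b D : ℤ) : Set ℤ := U (-2 * a) (a ^ 2 - 4 * b) D

/-- the active primes of a curve -/
def Active (a b : ℤ) (p : ℕ) : Prop :=
  p.Prime ∧ p % 8 = 1 ∧ ¬ (p : ℤ) ∣ b * (a ^ 2 - 4 * b) ∧
    ∀ l : ℕ, l.Prime → (l : ℤ) ∣ b * (a ^ 2 - 4 * b) → IsSquare (l : ZMod p)

/-- the passive primes of a curve -/
def Passive (a b : ℤ) (p : ℕ) : Prop :=
  p.Prime ∧ ¬ IsSquare ((b : ℤ) : ZMod p) ∧ ¬ IsSquare ((a ^ 2 - 4 * b : ℤ) : ZMod p)

open Classical in
/-- the number of the members of `T` different from `p` which are not squares modulo `p` -/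
noncomputable def nonres (T : Finset ℕ) (p : ℕ) : ℕ :=
  (T.filter fun r : ℕ => r ≠ p ∧ ¬ IsSquare (r : ZMod p)).card

open Classical in
/-- `0` if `y ^ 4 + a y ^ 2 + b` has a root modulo `p`, and `1` otherwise -/
noncomputable def quart (a b : ℤ) (p : ℕ) : ZMod 2 :=
  if ∃ y : ZMod p, y ^ 4 + (a : ZMod p) * y ^ 2 + (b : ZMod p) = 0 then 0 else 1

open Classical in
/-- the active primes of a finite set of primes -/
noncomputable def S (a b : ℤ) (T : Finset ℕ) : Finset ℕ := T.filter (Active a b)

open Classical in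
/-- the matrix over `𝔽₂` with rows and columns indexed by the active primes of the set `T` of primes: off
the diagonal the entry at `(p, p')` is `1` if `p'` is not a square modulo `p` and `0` otherwise; on the
diagonal it is the number of the members of `T` different from `p` which are not squares modulo
`p`, plus `1` if `y ^ 4 + a y ^ 2 + b` has no root modulo `p` -/
noncomputable def R (a b : ℤ) (T : Finset ℕ) : Matrix (S a b T) (S a b T) (ZMod 2) :=
  Matrix.of fun i j =>
    if i = j then (nonres T i : ZMod 2) + quart a b i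
    else if IsSquare ((j : ℕ) : ZMod (i : ℕ)) then 0 else 1

/-- the corank of the matrix `R a b T` -/
noncomputable def corank (a b : ℤ) (T : Finset ℕ) : ℕ :=
  Module.finrank (ZMod 2) (LinearMap.ker (R a b T).mulVecLin)

/-- the two Selmer groups of `E_D` are finite and have the orders `# U 2 ^ r` and `# U' 2 ^ r` -/
def Orders (a b D : ℤ) (r : ℕ) : Prop :=
  ((SelDual a b D).Finite ∧ (SelDual a b D).ncard = (U a b D).ncard * 2 ^ r) ∧
  ((SelPhi a b D).Finite ∧ (SelPhi a b D).ncard = (U' a b D).ncard * 2 ^ r)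

/-- the number `2 ^ rank · # Ш[2]` of the curve `E_D` -/
noncomputable def size (a b D : ℤ) : ℕ :=
  2 ^ rank (a * D) (b * D ^ 2) * Nat.card (ShaTwo (a * D) (b * D ^ 2))

/-- the `2`-torsion of the Tate-Shafarevich group of `E_D` is finite, and the bounds from both sides -/
def Bounds (a b D : ℤ) (r : ℕ) : Prop :=
  Finite (ShaTwo (a * D) (b * D ^ 2)) ∧ (U' a b D).ncard * 2 ^ r ≤ 2 * size a b D ∧
    4 * size a b D ≤ (U a b D).ncard * (U' a b D).ncard * 4 ^ r

/-! ### several curves -/

variable {M : ℕ}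

/-- the common class: squarefree, every prime factor is active for all the curves or passive for all the
curves -/
def Class (a b : Fin M → ℤ) (D : ℤ) : Prop :=
  Squarefree D ∧ ∀ p : ℕ, p.Prime → (p : ℤ) ∣ D →
    (∀ k, Active (a k) (b k) p) ∨ (∀ k, Passive (a k) (b k) p)

/-- the same local class -/
def Same (a b : Fin M → ℤ) (d D : ℕ) : Prop :=
  IsSquare ((d * D : ℕ) : ZMod (8 * (∏ k, (b k * (a k ^ 2 - 4 * b k))).natAbs))

/-- the corank for the twist of the curve `k` by `m_k D`: the set of the primes which divide the squarefree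
part of `m_k D` is the symmetric difference -/
noncomputable def r (a b m : Fin M → ℤ) (k : Fin M) (D : ℤ) : ℕ :=
  corank (a k) (b k) (symmDiff D.natAbs.primeFactors (m k).natAbs.primeFactors)

/-- the twists of the curves `k` and `l` are not separated -/
def Equal (a b m : Fin M → ℤ) (k l : Fin M) : Prop :=
  |m k| = |m l| ∧ ∀ p : ℕ, (∀ j, Active (a j) (b j) p) → quart (a k) (b k) p = quart (a l) (b l) p

/-- all pairs are separated -/
def Separated (a b m : Fin M → ℤ) : Prop := ∀ k l, k ≠ l → ¬ Equal a b m k l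

/-- the parts supported on the bad primes have two elements -/
def Small (a b m : Fin M → ℤ) (d : ℕ) (k : Fin M) : Prop :=
  (U (a k) (b k) (m k * d)).ncard = 2 ∧ (U' (a k) (b k) (m k * d)).ncard = 2

open Classical in
/-- the number of the `D ≤ X` of the class with the property `P` -/
noncomputable def count (a b : Fin M → ℤ) (P : ℕ → Prop) (X : ℕ) : ℕ :=
  ((Icc 1 X).filter fun D : ℕ => Class a b D ∧ P D).card

/-- the number `κ = (1 - 1/2) (1 - 1/8) (1 - 1/32) ⋯` -/
noncomputable def κ : ℝ := ∏' i : ℕ, (1 - (1 / 2 : ℝ) ^ (2 * i + 1))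

/-- the limit law `κ / ((2 - 1) (4 - 1) ⋯ (2 ^ s - 1))` -/
noncomputable def α (s : ℕ) : ℝ := κ / ∏ i ∈ range s, ((2 : ℝ) ^ (i + 1) - 1)

/-- the orders of the Selmer groups and the bounds -/
def OrdersLaw (a b m : Fin M → ℤ) : Prop := ∀ D : ℤ, Class a b D → ∀ k,
  Orders (a k) (b k) (m k * D) (r a b m k D) ∧ Bounds (a k) (b k) (m k * D) (r a b m k D)

/-- the parts supported on the bad primes only depend on the local class -/
def LocalParts (a b m : Fin M → ℤ) : Prop := ∀ d D : ℕ, Class a b d → Class a b D →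
  Same a b d D → ∀ k, U (a k) (b k) (m k * D) = U (a k) (b k) (m k * d) ∧
    U' (a k) (b k) (m k * D) = U' (a k) (b k) (m k * d)

/-- the curves which are not separated have the same coranks -/
def NotSeparated (a b m : Fin M → ℤ) : Prop := ∀ k l, Equal a b m k l → ∀ D : ℤ, Class a b D →
  r a b m k D = r a b m l D

/-- the joint law in every local class -/
def JointLaw (a b m : Fin M → ℤ) : Prop := Separated a b m → ∀ d : ℕ, Class a b d →
  ∀ s : Fin M → ℕ, Tendsto (fun X : ℕ =>
    (count a b (fun D => Same a b d D ∧ ∀ k, r a b m k D = s k) X : ℝ) /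
      (count a b (Same a b d) X : ℝ)) atTop (nhds (∏ k, α (s k)))

/-- the local classes have positive relative density -/
def LocalDensity (a b : Fin M → ℤ) : Prop := ∀ d : ℕ, Class a b d → ∃ (η : ℝ) (X₀ : ℕ), 0 < η ∧
  ∀ X : ℕ, X₀ ≤ X → η * (count a b (fun _ => True) X : ℝ) ≤ (count a b (Same a b d) X : ℝ)

/-- the size of the class -/
def ClassSize (a b : Fin M → ℤ) : Prop := ∃ (c δ : ℝ) (X₀ : ℕ), 0 < c ∧ 0 < δ ∧ ∀ X : ℕ, X₀ ≤ X →
  c * X * (Real.log X) ^ (-1 + δ : ℝ) ≤ (count a b (fun _ => True) X : ℝ)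

/-- the twist of the curve `k` by `m_k D` has rank `0` and no elements of `2`-power order in its
Tate-Shafarevich group -/
def Triv (a b m : Fin M → ℤ) (D : ℕ) (k : Fin M) : Prop :=
  Trivial (a k * (m k * D)) (b k * (m k * D) ^ 2)

/-- the exact proportion of the trivial Tate-Shafarevich groups -/
def TrivialLaw (a b m : Fin M → ℤ) : Prop := Separated a b m → ∀ d : ℕ, Class a b d →
  (∀ k, Small a b m d k) → Tendsto (fun X : ℕ =>
    (count a b (fun D => Same a b d D ∧ ∀ k, Triv a b m D k) X : ℝ) /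
      (count a b (Same a b d) X : ℝ)) atTop (nhds (κ ^ M))

/-- all patterns of trivial and large groups occur -/
def Patterns (a b m : Fin M → ℤ) : Prop := Separated a b m → ∀ (d : ℕ) (J : Finset (Fin M)) (T : ℕ),
  Class a b d → (∀ k, k ∉ J → Small a b m d k) → ∃ (η : ℝ) (X₀ : ℕ), 0 < η ∧ ∀ X : ℕ, X₀ ≤ X →
    η * (count a b (fun _ => True) X : ℝ) ≤ (count a b (fun D => Same a b d D ∧
      (∀ k ∈ J, 2 ^ T ≤ size (a k) (b k) (m k * D)) ∧ ∀ k, k ∉ J → Triv a b m D k) X : ℝ)

section proof

open Q283.GS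
open Q283.GM (cR)
open Q44.TI Q44.TK
open scoped Classical

variable {a b m : Fin M → ℤ}

lemma act_iff (hM : 0 < M) (p : ℕ) : (∀ k, Active (a k) (b k) p) ↔ ActM a b p := by
  constructor
  · intro h
    have h0 := h ⟨0, hM⟩
    refine ⟨h0.1, h0.2.1, fun hd => ?_, fun l hl hd => ?_⟩
    · obtain ⟨k, -, hk⟩ := (Prime.dvd_finsetProd_iff (Nat.prime_iff_prime_int.1 h0.1) _).1 hd
      exact (h k).2.2.1 hk
    · obtain ⟨k, -, hk⟩ := (Prime.dvd_finsetProd_iff (Nat.prime_iff_prime_int.1 hl) _).1 hd
      exact (h k).2.2.2 l hl hk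
  · intro h k
    exact h.act k

lemma pas_iff (hM : 0 < M) (p : ℕ) : (∀ k, Passive (a k) (b k) p) ↔ PasM a b p :=
  ⟨fun h => ⟨(h ⟨0, hM⟩).1, fun k => (h k).2⟩, fun h k => h.pas k⟩

lemma class_iff (hM : 0 < M) (D : ℤ) : Class a b D ↔ ClaM a b D := by
  unfold Class ClaM
  refine and_congr_right fun _ => forall_congr' fun p => forall_congr' fun _ =>
    forall_congr' fun _ => ?_
  rw [act_iff hM, pas_iff hM]

lemma r_eq (k : Fin M) (D : ℤ) : r a b m k D = crk (a k) (b k) (symmDiff (pr D) (pr (m k))) := rfl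

lemma same_iff (d D : ℕ) : Same a b d D ↔ Q44.TK.Same a b d D := Iff.rfl

lemma mem_cnt {P : ℕ → Prop} {X D : ℕ} {i : DecidablePred fun D : ℕ => Class a b D ∧ P D} :
    D ∈ @Finset.filter ℕ (fun D : ℕ => Class a b D ∧ P D) i (Icc 1 X) ↔
      (1 ≤ D ∧ D ≤ X) ∧ Class a b D ∧ P D := by
  rw [Finset.mem_filter, Finset.mem_Icc]

lemma α_eq (s : ℕ) : α s = al s := by
  unfold α al
  have h : ∀ r, Y697.PQ.cf r = (∏ i ∈ range r, ((2 : ℝ) ^ (i + 1) - 1))⁻¹ := by
    intro r
    induction r with
    | zero => simp [Y697.PQ.cf]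
    | succ r ih =>
      rw [show Y697.PQ.cf (r + 1) = Y697.PQ.cf r / (2 ^ (r + 1) - 1) from rfl, ih,
        Finset.prod_range_succ, mul_inv, div_eq_mul_inv]
  rw [h, div_eq_mul_inv]
  rfl

lemma κ_pos : (0 : ℝ) < κ := lt_trans (by norm_num) Pool.Agent.Y948.CQ.t_C2.2.2.2.1

lemma α_pos (s : ℕ) : 0 < α s := by
  unfold α
  refine div_pos κ_pos (Finset.prod_pos fun i _ => ?_)
  have : (1 : ℝ) < 2 ^ (i + 1) := one_lt_pow₀ (by norm_num) (Nat.succ_ne_zero i)
  linarith

/-- the bounds of one curve -/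
lemma bounds {a b : ℤ} (hb : ¬ IsSquare b) (hc : ¬ IsSquare (a ^ 2 - 4 * b)) {D : ℤ} (hD : D ≠ 0)
    {s : ℕ} (h : Orders a b D s) : Bounds a b D s := by
  obtain ⟨⟨h1, h2⟩, h3, h4⟩ := h
  obtain ⟨k1, k2⟩ := sha_main hb hc hD h1 h3
  refine ⟨k1, ?_, ?_⟩
  · have e1 : -2 * (a * D) = -2 * a * D := by ring
    have e2 : (a * D) ^ 2 - 4 * (b * D ^ 2) = (a ^ 2 - 4 * b) * D ^ 2 := by ring
    have h5 := sha_ge (A := a * D) (B := b * D ^ 2) (nsq_mul hb hD) (by
      rw [e2]
      exact nsq_mul hc hD) h1 (by rw [e1, e2]; exact h3)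
    rw [e1, e2] at h5
    have h6 : (SelPhi a b D).ncard ≤ 2 * size a b D := h5
    rw [h4] at h6
    exact h6
  · have h5 : 4 * size a b D ≤ (SelDual a b D).ncard * (SelPhi a b D).ncard := k2
    rw [h2, h4] at h5
    refine h5.trans (le_of_eq ?_)
    have : (4 : ℕ) ^ s = 2 ^ s * 2 ^ s := by
      rw [← mul_pow]
      norm_num
    rw [this]
    ring

/-- the trivial groups -/
lemma trivial_iff {a b : ℤ} {D : ℤ} {s : ℕ} (h : Bounds a b D s) (h1 : (U a b D).ncard = 2)
    (h2 : (U' a b D).ncard = 2) : Trivial (a * D) (b * D ^ 2) ↔ s = 0 := by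
  obtain ⟨hf, h3, h4⟩ := h
  rw [h2] at h3 h4
  rw [h1] at h4
  have h5 : 2 ^ s ≤ size a b D := by omega
  have h6 : size a b D ≤ 4 ^ s := by omega
  constructor
  · rintro ⟨g1, g2⟩
    have h7 : Nat.card (ShaTwo (a * D) (b * D ^ 2)) = 1 := by
      rw [Nat.card_eq_one_iff_unique]
      constructor
      · constructor
        rintro ⟨x, hx⟩ ⟨y, hy⟩
        apply Subtype.ext
        show x = y
        rw [g2 x 1 (by rw [pow_one, two_nsmul]; exact hx), g2 y 1 (by rw [pow_one, two_nsmul]; exact hy)]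
      · exact ⟨⟨0, add_zero 0⟩⟩
    have h8 : size a b D = 1 := by
      unfold size
      rw [g1, h7, pow_zero, mul_one]
    rw [h8] at h5
    by_contra hs
    have : 2 ^ 1 ≤ 2 ^ s := Nat.pow_le_pow_right two_pos (Nat.one_le_iff_ne_zero.2 hs)
    omega
  · rintro rfl
    rw [pow_zero] at h5 h6
    have h7 : size a b D = 1 := le_antisymm h6 h5
    unfold size at h7
    have h8 := Nat.eq_one_of_mul_eq_one_right h7
    have h9 := Nat.eq_one_of_mul_eq_one_left h7
    refine ⟨?_, ?_⟩
    · by_contra hs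
      have : 2 ^ 1 ≤ 2 ^ rank (a * D) (b * D ^ 2) :=
        Nat.pow_le_pow_right two_pos (Nat.one_le_iff_ne_zero.2 hs)
      omega
    · have h10 : ∀ x : Pool.Agent.W262.SH.Sha (E (a * D) (b * D ^ 2)), x + x = 0 → x = 0 := by
        intro x hx
        obtain ⟨⟨h11⟩, -⟩ := Nat.card_eq_one_iff_unique.1 h9
        have h12 := h11 (⟨x, hx⟩ : ShaTwo (a * D) (b * D ^ 2)) ⟨0, add_zero 0⟩
        exact congrArg Subtype.val h12
      intro x n
      induction n with
      | zero =>
        intro hx
        rwa [pow_zero, one_nsmul] at hx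
      | succ n ih =>
        intro hx
        apply ih
        apply h10
        rw [← two_nsmul, ← mul_nsmul', ← pow_succ']
        exact hx

lemma sep_of (hM : 0 < M) (hq : ∃ q, PasM a b q) (hm : ∀ k, ClaM a b (m k))
    (h : Separated a b m) (k l : Fin M) (hkl : k ≠ l) : SepM a b m k l := by
  by_cases he : |m k| = |m l|
  · have h1 : ∃ p : ℕ, (∀ j, Active (a j) (b j) p) ∧
        quart (a k) (b k) p ≠ quart (a l) (b l) p := by
      by_contra h2
      push Not at h2
      exact h k l hkl ⟨he, h2⟩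
    obtain ⟨p, hp, hne⟩ := h1
    refine sepM_curve hM hq ?_ ((act_iff hM p).1 hp) hne
    unfold pr
    congr 1
    rw [Int.abs_eq_natAbs, Int.abs_eq_natAbs] at he
    exact_mod_cast he
  · refine sepM_diff hM hq hm fun h1 => he ?_
    have e1 := pd_pr (hm k).1
    have e2 := pd_pr (hm l).1
    rw [h1] at e1
    rw [Int.abs_eq_natAbs, Int.abs_eq_natAbs]
    exact e1.symm.trans e2

/-- **The joint laws of the Selmer groups and the Tate-Shafarevich groups of simultaneous twists.** -/
theorem result (hM : 0 < M) (a b m : Fin M → ℤ) (hq : ∃ q : ℕ, ∀ k, Passive (a k) (b k) q)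
    (hm : ∀ k, Class a b (m k)) :
    OrdersLaw a b m ∧ LocalParts a b m ∧ NotSeparated a b m ∧ JointLaw a b m ∧ TrivialLaw a b m ∧
    Patterns a b m ∧ LocalDensity a b ∧ ClassSize a b ∧ HasSum α 1 ∧ (0.4194 < κ ∧ κ < 0.4195) := by
  have hq' : ∃ q, PasM a b q := by
    obtain ⟨q, hq⟩ := hq
    exact ⟨q, (pas_iff hM q).1 hq⟩
  have hm' : ∀ k, ClaM a b (m k) := fun k => (class_iff hM _).1 (hm k)
  have hns : ∀ k, ¬ IsSquare (b k) ∧ ¬ IsSquare (a k ^ 2 - 4 * b k) := by
    obtain ⟨q, hq⟩ := hq'
    exact fun k => hq.nsq k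
  have hO : OrdersLaw a b m := by
    intro D hD k
    have hD' := (class_iff hM _).1 hD
    have h1 : Orders (a k) (b k) (m k * D) (r a b m k D) :=
      main_mul (hns k).1 (hns k).2 ((hm' k).cla k) (hD'.cla k)
    exact ⟨h1, bounds (hns k).1 (hns k).2 (mul_ne_zero (hm k).1.ne_zero hD.1.ne_zero) h1⟩
  have hL : LocalParts a b m := by
    intro d D hd hD hs k
    exact Un_same hM ((class_iff hM _).1 hd) ((class_iff hM _).1 hD) hs k (hm k).1.ne_zero
  have hJ : JointLaw a b m := by
    intro hsep d hd s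
    have hd' := (class_iff hM _).1 hd
    have e : ∏ k, α (s k) = cR s := by
      unfold cR
      exact Finset.prod_congr rfl fun k _ => α_eq (s k)
    rw [e]
    refine (lawM hM hq' m hm' (fun k l hkl => sep_of hM hq' hm' hsep k l hkl) s hd').congr
      fun X => ratio (fun D => ?_) (fun D => ?_) _
    · rw [class_iff hM, and_assoc]
      exact Iff.rfl
    · rw [class_iff hM]
      exact Iff.rfl
  have hone : ∀ (d D : ℕ), Class a b d → Class a b D → Same a b d D → ∀ k, Small a b m d k →
      (Triv a b m D k ↔ r a b m k D = 0) := by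
    intro d D hd hD hs k hk
    obtain ⟨g1, g2⟩ := hL d D hd hD hs k
    refine trivial_iff (hO D hD k).2 ?_ ?_
    · rw [g1]
      exact hk.1
    · rw [g2]
      exact hk.2
  have hden : LocalDensity a b := by
    intro d hd
    obtain ⟨η, X₀, h1, h2⟩ := posM hM hq' ((class_iff hM _).1 hd)
    refine ⟨η, X₀, h1, fun X hX => ?_⟩
    have h3 := h2 X hX
    have e1 : count a b (fun _ => True) X = ((Icc 1 X).filter fun D : ℕ => ClaM a b D).card := by
      unfold count
      refine cardf (fun D => ?_) _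
      rw [and_true, class_iff hM]
    have e2 : count a b (Same a b d) X =
        ((Icc 1 X).filter fun D : ℕ => ClaM a b D ∧ Q44.TK.Same a b d D).card := by
      unfold count
      refine cardf (fun D => ?_) _
      rw [class_iff hM]
      exact Iff.rfl
    rw [e1, e2]
    exact h3
  refine ⟨hO, hL, ?_, hJ, ?_, ?_, hden, ?_, ?_,
    ⟨Pool.Agent.Y948.CQ.t_C2.2.2.2.1, Pool.Agent.Y948.CQ.t_C2.2.2.2.2⟩⟩
  · rintro k l ⟨h1, h2⟩ D hD
    have hD' := (class_iff hM _).1 hD
    rw [r_eq, r_eq]
    have e : pr (m k) = pr (m l) := by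
      unfold pr
      congr 1
      rw [Int.abs_eq_natAbs, Int.abs_eq_natAbs] at h1
      exact_mod_cast h1
    rw [e]
    refine crk_same hM hq' (fun p hp => ?_) fun p hp => h2 p ((act_iff hM p).2 hp)
    rcases Finset.mem_symmDiff.1 hp with h | h
    · exact hD'.pr p h.1
    · exact (hm' l).pr p h.1
  · intro hsep d hd hs
    have h1 := hJ hsep d hd (fun _ => 0)
    have e : ∏ _k : Fin M, α 0 = κ ^ M := by
      rw [Finset.prod_const, Finset.card_univ, Fintype.card_fin]
      congr 1
      unfold α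
      rw [Finset.range_zero, Finset.prod_empty, div_one]
    rw [e] at h1
    refine h1.congr fun X => ?_
    unfold count
    refine ratio (fun D => ?_) (fun D => Iff.rfl) _
    refine and_congr_right fun hD => and_congr_right fun hS => forall_congr' fun k => ?_
    exact (hone d D hd hD hS k (hs k)).symm
  · intro hsep d J T hd hs
    obtain ⟨η, X₀, hη, h2⟩ := hden d hd
    set s : Fin M → ℕ := fun k => if k ∈ J then T + 1 else 0 with hsdef
    have hLim := hJ hsep d hd s
    set L := ∏ k, α (s k) with hLdef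
    have hL0 : 0 < L := Finset.prod_pos fun k _ => α_pos _
    have h3 := hLim.eventually (lt_mem_nhds (show L / 2 < L by linarith))
    obtain ⟨X₁, h4⟩ := Filter.eventually_atTop.1 h3
    refine ⟨L / 2 * η, max X₀ X₁, by positivity, fun X hX => ?_⟩
    have h5 := h2 X (le_trans (le_max_left _ _) hX)
    have h6 := h4 X (le_trans (le_max_right _ _) hX)
    have hc0 : (0 : ℝ) ≤ (count a b (Same a b d) X : ℝ) := Nat.cast_nonneg _
    have h7 : L / 2 * (count a b (Same a b d) X : ℝ) ≤
        (count a b (fun D => Same a b d D ∧ ∀ k, r a b m k D = s k) X : ℝ) := by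
      rcases hc0.eq_or_lt with h0 | h0
      · rw [← h0, mul_zero]
        exact Nat.cast_nonneg _
      · exact ((lt_div_iff₀ h0).1 h6).le
    have h8 : count a b (fun D => Same a b d D ∧ ∀ k, r a b m k D = s k) X ≤
        count a b (fun D => Same a b d D ∧ (∀ k ∈ J, 2 ^ T ≤ size (a k) (b k) (m k * D)) ∧
          ∀ k, k ∉ J → Triv a b m D k) X := by
      unfold count
      refine Finset.card_le_card fun D hD => ?_
      obtain ⟨g1, g2, g3, g4⟩ := (mem_cnt (a := a) (b := b)
        (P := fun D => Same a b d D ∧ ∀ k, r a b m k D = s k)).1 hD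
      refine (mem_cnt (a := a) (b := b)
        (P := fun D => Same a b d D ∧ (∀ k ∈ J, 2 ^ T ≤ size (a k) (b k) (m k * D)) ∧
          ∀ k, k ∉ J → Triv a b m D k)).2 ⟨g1, g2, g3, fun k hk => ?_, fun k hk => ?_⟩
      · have g5 := (hO D g2 k).2.2.1
        have g6 : s k = T + 1 := by
          rw [hsdef]
          exact if_pos hk
        rw [g4 k, g6] at g5
        have h0 : m k * (D : ℤ) ≠ 0 := mul_ne_zero (hm k).1.ne_zero g2.1.ne_zero
        have g7 : 1 ≤ (U' (a k) (b k) (m k * D)).ncard :=
          (Un_bd (ne_of_nsq (hns k).1) (ne_of_nsq (hns k).2) h0).2.1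
        have g8 : 1 * 2 ^ (T + 1) ≤ (U' (a k) (b k) (m k * D)).ncard * 2 ^ (T + 1) :=
          Nat.mul_le_mul_right _ g7
        rw [pow_succ] at g5 g8
        omega
      · have g6 : s k = 0 := by
          rw [hsdef]
          exact if_neg hk
        refine (hone d D hd g2 g3 k (hs k hk)).2 ?_
        rw [g4 k, g6]
    have h9 : (count a b (fun D => Same a b d D ∧ ∀ k, r a b m k D = s k) X : ℝ) ≤
        (count a b (fun D => Same a b d D ∧ (∀ k ∈ J, 2 ^ T ≤ size (a k) (b k) (m k * D)) ∧
          ∀ k, k ∉ J → Triv a b m D k) X : ℝ) := by exact_mod_cast h8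
    refine le_trans ?_ h9
    refine le_trans ?_ h7
    rw [mul_assoc]
    exact mul_le_mul_of_nonneg_left h5 (by positivity)
  · obtain ⟨c, δ, X₀, h1, h2, h3⟩ := sizeM hM hq'
    refine ⟨c, δ, X₀, h1, h2, fun X hX => (h3 X hX).trans (le_of_eq ?_)⟩
    unfold count
    congr 1
    refine cardf (fun D => ?_) _
    rw [and_true, class_iff hM]
  · have e : α = Q283.GS.al := funext α_eq
    rw [e]
    exact Q283.GS.hasSum_al

end proof

end Pool.Agent.Results.MP_a3f657_nt.ArbitraryCurves
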