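import Mathlib
import Pool.Agent.Q269.IsoFour.Four
import Pool.Agent.Q269.SelFour.Main

/-!
# The `2 ^ ∞`-Selmer groups of the elliptic curves with a rational cyclic subgroup of order 4

All elliptic curves over `ℚ` with a rational cyclic subgroup of order 4 (that is with a cyclic
isogeny of degree 4 defined over `ℚ`), ordered by height. For almost all of them the elements of
order at most two of the `2 ^ ∞`-Selmer group `S` form a group `(ℤ / 2) ^ k` with
`k = (3 / 2 + o(1)) log log H`, but the elements of order at most two of `2 S` form a group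
`(ℤ / 2) ^ r` for which the average of `4 ^ r` is bounded, and all the averages of `(2 ^ k) ^ r` off a
set of density zero are bounded. So the number `r` of the cyclic or divisible factors of `S` of
order at least `4` does not grow with the height: almost all the growth is in the factors of order
exactly two.
-/

set_option autoImplicit false

namespace Pool.Agent.Results.MP_a3f657_nt.CyclicFourSelmer

open Filter Topology

open Pool.Agent.Y667.BK (SelInf)

/-- the curve `y² = x³ + A x + B` over the field `K` -/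
def E (K : Type) [Field K] (A B : ℤ) : WeierstrassCurve K := ⟨0, 0, 0, (A : K), (B : K)⟩

/-- There is a complex point `P` of order 4 with a rational abscissa on `y² = x³ + A x + B`. As the
elements of order 4 of the group generated by `P` are `P` and `-P`, and these are the points of the
curve with the abscissa of `P`, this says that the cyclic group of order 4 generated by `P` is
stable under the Galois group, so that it is a rational cyclic subgroup of order 4 of the curve. -/
def HasCyclicFour (c : ℤ × ℤ) : Prop :=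
  ∃ (x : ℚ) (y : ℂ) (h : (E ℂ c.1 c.2).toAffine.Nonsingular (x : ℂ) y),
    addOrderOf (WeierstrassCurve.Affine.Point.some (x : ℂ) y h) = 4

/-- The pairs `(A, B)` of integers such that `4 A³ + 27 B² ≠ 0`, there is no prime `p` with
`p⁴ ∣ A` and `p⁶ ∣ B`, the curve `y² = x³ + A x + B` has a rational cyclic subgroup of order 4, and
the height `max (4 |A|³) (27 B²)` is at most `H`. Every elliptic curve over `ℚ` with a rational
cyclic subgroup of order 4 is isomorphic to `E ℚ A B` for exactly one pair with the first three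
properties. -/
def Fam (H : ℕ) : Set (ℤ × ℤ) :=
  {c : ℤ × ℤ | 4 * c.1 ^ 3 + 27 * c.2 ^ 2 ≠ 0 ∧
    (∀ p : ℕ, p.Prime → ¬ ((p : ℤ) ^ 4 ∣ c.1 ∧ (p : ℤ) ^ 6 ∣ c.2)) ∧
    HasCyclicFour c ∧ 4 * |c.1| ^ 3 ≤ H ∧ 27 * c.2 ^ 2 ≤ H}

/-- the proportion of the curves of `S` among the curves of height at most `H` -/
noncomputable def proportion (S : Set (ℤ × ℤ)) (H : ℕ) : ℝ :=
  ((Fam H ∩ S).ncard : ℝ) / (Fam H).ncard

/-- the upper density of a set of curves -/
noncomputable def upperDensity (S : Set (ℤ × ℤ)) : ℝ := limsup (proportion S) atTop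

/-- `|k - (3 / 2) log log H| ≤ δ log log H` -/
def Close (δ : ℝ) (H k : ℕ) : Prop :=
  |(k : ℝ) - 3 / 2 * Real.log (Real.log H)| ≤ δ * Real.log (Real.log H)

/-- The group of the elements killed by two of the `2 ^ ∞`-Selmer group
`S = ker (H¹(ℚ, E[2 ^ ∞]) → ∏ H¹(ℚ_v, E))` is isomorphic to `(ℤ / 2) ^ k` with
`|k - (3 / 2) log log H| ≤ δ log log H`. -/
def TwoRankLaw (δ : ℝ) (H : ℕ) (c : ℤ × ℤ) : Prop := ∃ k : ℕ, Close δ H k ∧
  Nonempty (AddSubgroup.torsionBy (SelInf (E ℚ c.1 c.2)) 2 ≃+ (Fin k → ZMod 2))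

/-- The set of the elements of the `2 ^ ∞`-Selmer group `S` which are killed by two and divisible by
two in `S`. If `S` is a direct sum of cyclic 2-groups and of groups `ℚ₂ / ℤ₂`, it has `2 ^ r`
elements, where `r` is the number of the summands of order at least 4 (`ℚ₂ / ℤ₂` included). -/
def Doubles (c : ℤ × ℤ) : Set (SelInf (E ℚ c.1 c.2)) := {x | x + x = 0 ∧ ∃ y, x = y + y}

/-! ### Proofs -/

open Pool.Agent.Q269.ShaFour (V2 mem_V2 LawV LL)
open Pool.Agent.Q269.IsoFour (F4)
open Pool.Agent.Q269.SelFour (D2 r4)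

lemma Fam_eq (H : ℕ) : Fam H = (Pool.Agent.Q269.IsoFour.F4 H : Set (ℤ × ℤ)) := by
  ext c
  rw [Finset.mem_coe, Pool.Agent.Q269.IsoFour.mem_F4]
  constructor
  · rintro ⟨h1, h2, h3, h4, h5⟩
    exact ⟨h1, ⟨h4, h5⟩, h2, (Pool.Agent.Q269.IsoFour.has4_iff h1).1 h3⟩
  · rintro ⟨h1, ⟨h4, h5⟩, h2, h3⟩
    exact ⟨h1, h2, (Pool.Agent.Q269.IsoFour.has4_iff h1).2 h3, h4, h5⟩

lemma tor_eq {G : Type} [AddCommGroup G] : AddSubgroup.torsionBy G 2 = V2 G := by
  ext x
  rw [mem_V2]
  change (2 : ℤ) • x = 0 ↔ x + x = 0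
  rw [two_zsmul]

lemma two_of {δ : ℝ} {H : ℕ} {c : ℤ × ℤ} (h : LawV δ H (SelInf (E ℚ c.1 c.2))) :
    TwoRankLaw δ H c := by
  obtain ⟨k, h1, h2⟩ := h
  refine ⟨k, h1, ?_⟩
  rw [tor_eq]
  exact h2

lemma D2_eq (c : ℤ × ℤ) : Doubles c = D2 (SelInf (Pool.Agent.W307.RT.Sh c.1 c.2)) := rfl

lemma r4_eq (c : ℤ × ℤ) : (Doubles c).ncard = r4 c := rfl

/-- **Theorem.** The number of the elliptic curves over `ℚ` of height at most `H` with a rational
cyclic subgroup of order 4 is finite and tends to infinity with `H`. (1) For every `δ > 0`, almost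
all of these curves have a `2 ^ ∞`-Selmer group `S` with `S[2] ≅ (ℤ / 2) ^ k`,
`|k - (3 / 2) log log H| ≤ δ log log H`. (2) For all of these curves the set of the elements of
`S[2]` which are divisible by two in `S` is finite, and for all `H` the average of the square of its
cardinality over the curves of height at most `H` is at most a constant. (3) There is a set `Z` of
curves of density zero such that for every `k` the sum of the `k`-th powers of these cardinalities
over the curves of height at most `H` outside of `Z` is at most `C_k` times the number of all the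
curves of height at most `H`. (4) For every real `A` the upper density of the curves for which the
cardinality is at least `2 ^ r`, times `A ^ r`, tends to zero for `r → ∞`. -/
theorem result :
    ((∀ H : ℕ, (Fam H).Finite) ∧ Tendsto (fun H : ℕ => (Fam H).ncard) atTop atTop) ∧
    (∀ δ : ℝ, 0 < δ → Tendsto (fun H : ℕ => proportion {c | TwoRankLaw δ H c} H) atTop (𝓝 1)) ∧
    ((∀ H : ℕ, ∀ c ∈ Fam H, (Doubles c).Finite) ∧
      ∃ C : ℝ, ∀ H : ℕ, ∑ᶠ c ∈ Fam H, ((Doubles c).ncard : ℝ) ^ 2 ≤ C * (Fam H).ncard) ∧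
    (∃ Z : Set (ℤ × ℤ), Tendsto (fun H : ℕ => proportion Z H) atTop (𝓝 0) ∧
      ∀ k : ℕ, ∃ C : ℝ, ∀ H : ℕ, ∑ᶠ c ∈ Fam H \ Z, ((Doubles c).ncard : ℝ) ^ k ≤
        C * (Fam H).ncard) ∧
    ∀ A : ℝ, Tendsto (fun r : ℕ => A ^ r * upperDensity {c | 2 ^ r ≤ (Doubles c).ncard}) atTop
      (𝓝 0) := by
  classical
  have hprop : ∀ (S : Set (ℤ × ℤ)) (H : ℕ), proportion S H =
      (((F4 H : Set (ℤ × ℤ)) ∩ S).ncard : ℝ) / ((F4 H).card : ℝ) := by
    intro S H
    unfold proportion
    rw [Fam_eq, Set.ncard_coe_finset]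
  have hprop2 : ∀ (S : Set (ℤ × ℤ)) (H : ℕ), proportion S H =
      (((F4 H).filter (fun c => c ∈ S)).card : ℝ) / (F4 H).card := by
    intro S H
    rw [hprop]
    have e1 : ((F4 H : Set (ℤ × ℤ)) ∩ S) =
        (((F4 H).filter (fun c => c ∈ S) : Finset (ℤ × ℤ)) : Set (ℤ × ℤ)) := by
      ext c
      simp
    rw [e1, Set.ncard_coe_finset]
  obtain ⟨D, hD, H1, hcmp⟩ := Pool.Agent.Q269.IsoFour.compare
  refine ⟨⟨fun H => by rw [Fam_eq]; exact Finset.finite_toSet _, ?_⟩, fun δ hδ => ?_, ⟨?_, ?_⟩, ?_,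
    fun A => ?_⟩
  · obtain ⟨c, C, hc, -, h⟩ := Pool.Agent.Q269.IsoFour.count_F4
    have h1 : Tendsto (fun H : ℕ => c * (H : ℝ) ^ ((1 : ℝ) / 3)) atTop atTop :=
      ((tendsto_rpow_atTop (by norm_num)).comp tendsto_natCast_atTop_atTop).const_mul_atTop hc
    have h2 : Tendsto (fun H : ℕ => ((Fam H).ncard : ℝ)) atTop atTop := by
      refine tendsto_atTop_mono' _ ?_ h1
      filter_upwards [h] with H hH
      rw [Fam_eq, Set.ncard_coe_finset]
      exact hH.1
    exact tendsto_natCast_atTop_iff.1 h2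
  · rw [Metric.tendsto_atTop]
    intro ε hε
    obtain ⟨H0, hH0⟩ := Pool.Agent.Q269.SelFour.law_inf δ (ε / 2) hδ (by positivity)
    refine ⟨max H0 H1, fun H hH => ?_⟩
    have h1 := hH0 H ((le_max_left _ _).trans hH)
    have h2 : (0 : ℝ) < (F4 H).card := by
      exact_mod_cast (hcmp H ((le_max_right _ _).trans hH)).1
    rw [hprop2]
    have h3 : (((F4 H).filter (fun c => ¬ c ∈ {c | TwoRankLaw δ H c})).card : ℝ) ≤
        ε / 2 * (F4 H).card := by
      refine le_trans (Nat.cast_le.2 (Finset.card_le_card fun c hc => ?_)) h1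
      rw [Finset.mem_filter] at hc ⊢
      exact ⟨hc.1, fun h => hc.2 (two_of h)⟩
    have h4 : (((F4 H).filter (fun c => c ∈ {c | TwoRankLaw δ H c})).card : ℝ) +
        (((F4 H).filter (fun c => ¬ c ∈ {c | TwoRankLaw δ H c})).card : ℝ) = (F4 H).card := by
      exact_mod_cast Finset.card_filter_add_card_filter_not (s := F4 H)
        (fun c => c ∈ {c | TwoRankLaw δ H c})
    rw [Real.dist_eq, abs_lt]
    have h5 : (((F4 H).filter (fun c => c ∈ {c | TwoRankLaw δ H c})).card : ℝ) / (F4 H).card ≤ 1 := by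
      rw [div_le_one h2]
      have : (0 : ℝ) ≤ (((F4 H).filter (fun c => ¬ c ∈ {c | TwoRankLaw δ H c})).card : ℝ) :=
        Nat.cast_nonneg _
      linarith
    have h6 : 1 - ε / 2 ≤
        (((F4 H).filter (fun c => c ∈ {c | TwoRankLaw δ H c})).card : ℝ) / (F4 H).card := by
      rw [le_div_iff₀ h2]
      linarith
    constructor <;> linarith
  · intro H c hc
    rw [Fam_eq] at hc
    exact Pool.Agent.Q269.SelFour.r4_fin hc
  · obtain ⟨C, hC⟩ := Pool.Agent.Q269.SelFour.avg2
    refine ⟨C, fun H => ?_⟩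
    have h1 := hC H
    rw [Fam_eq, finsum_mem_coe_finset, Set.ncard_coe_finset]
    exact h1
  · obtain ⟨Z, hZ1, hZ2⟩ := Pool.Agent.Q269.SelFour.moments4
    refine ⟨Z, ?_, fun k => ?_⟩
    · simp only [hprop]
      exact hZ1
    · obtain ⟨C, hC⟩ := hZ2 k
      refine ⟨C, fun H => ?_⟩
      have h1 := hC H
      rw [Fam_eq, Set.ncard_coe_finset]
      exact h1
  · have h1 := Pool.Agent.Q269.SelFour.tails4 A
    have h2 : ∀ S : Set (ℤ × ℤ), upperDensity S = Pool.Agent.Q269.IsoFour.uF S := by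
      intro S
      unfold upperDensity Pool.Agent.Q269.IsoFour.uF
      congr 1
      funext H
      exact hprop S H
    simp only [h2]
    exact h1

end Pool.Agent.Results.MP_a3f657_nt.CyclicFourSelmer
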