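import Pool.Agent.Q138.PS.TX
import Pool.Agent.Results.MP_a3f657_nt.TrivialSelInfTwists

/-!
# The `2 ^ ∞`-Selmer groups of the twists of `X_0(14)` by the integers `± ⌊β P(n)⌋`: the exact probability of the zero group

`E^D : y² = x³ + 5805 D² x - 285714 D³` are the quadratic twists of the non-CM curve `E = X_0(14)`, which
has exactly one rational point of order two. The class `Adm` consists of the squarefree `D = 1 mod 4` of
any sign which are squares modulo `7`, prime to `3`, and all prime factors of which split completely in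
`ℚ(i, √2, √-7)` or are inert in `ℚ(√2)` and in `ℚ(√-7)`.

Let `q ≥ 2`. Outside a set of real numbers of Hausdorff dimension at most `q / (q + 1 / (q 2 ^ (q - 1)))` (that is
`8 / 9` for `q = 2`) every `β > 0` has the following property. For ALL integral polynomials `P` of degree `q` with
positive leading coefficient and coefficients of size at most `N ^ η` and for both signs `s`, at least `N ^ (1 - ε)` of
the `D = s ⌊β P(n)⌋`, `n ≤ N`, belong to the class, and for the proportion `c = ∏_{i ≥ 1} (1 - 2^{1 - 2 i}) = 0.4194...` of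
these the Selmer group `Sel_{2 ^ ∞}(E^D)`, and with it the rank and `Ш(E^D)[2 ^ ∞]`, is zero; the events for the twists
of `E^D` by several fixed elements of the class are asymptotically independent.
-/

set_option autoImplicit false

open Finset Filter
open Pool.Agent.Q138.PS

namespace Pool.Agent.Results.MP_a3f657_nt.SelInfRealMultiples

open Pool.Agent.TH841.SH.D (Sha Pruf)

open Pool.Agent.Y17.X.SI (SelInf)

/-- coefficients of the twist `E^D : y² = x³ + A D x + B D` of `X_0(14)` -/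
def A (D : ℤ) : ℤ := 5805 * D ^ 2

/-- coefficients of the twist `E^D : y² = x³ + A D x + B D` of `X_0(14)` -/
def B (D : ℤ) : ℤ := -285714 * D ^ 3

/-- the curve `E^D` over `ℚ` -/
def E (D : ℤ) : WeierstrassCurve ℚ :=
  { a₁ := 0, a₂ := 0, a₃ := 0, a₄ := (A D : ℚ), a₆ := (B D : ℚ) }

/-- all the terms of the sequence `0 → E^D(ℚ) ⊗ ℚ₂/ℤ₂ → Sel_{2 ^ ∞}(E^D) → Ш(E^D)[2 ^ ∞] → 0` are
zero -/
def ZeroSeq (D : ℤ) : Prop :=
  (∀ x : TensorProduct ℤ (E D).toAffine.Point Pruf, x = 0) ∧ (∀ x : SelInf (E D), x = 0) ∧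
    ∀ (k : ℕ) (x : Sha (E D)), (2 ^ k : ℕ) • x = 0 → x = 0

/-- primes which split completely in `ℚ(i, √2, √-7)` -/
def Split (p : ℕ) : Prop := p.Prime ∧ p % 8 = 1 ∧ (p % 7 = 1 ∨ p % 7 = 2 ∨ p % 7 = 4)

/-- primes inert in `ℚ(√2)` and in `ℚ(√-7)` -/
def Inert (q : ℕ) : Prop :=
  q.Prime ∧ (q % 8 = 3 ∨ q % 8 = 5) ∧ (q % 7 = 3 ∨ q % 7 = 5 ∨ q % 7 = 6)

/-- the class of discriminants -/
def Adm (D : ℤ) : Prop := Squarefree D ∧ D % 4 = 1 ∧ (D % 7 = 1 ∨ D % 7 = 2 ∨ D % 7 = 4) ∧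
  ∀ p : ℕ, p.Prime → (p : ℤ) ∣ D → p ≠ 3 ∧ (Split p ∨ Inert p)

/-- the squarefree part of the product of two squarefree numbers -/
def star (m D : ℤ) : ℤ := m * D / (Int.gcd m D : ℤ) ^ 2

open Classical in
/-- the number of the `n ≤ N` for which `D = s ⌊β P(n)⌋` belongs to the class and has the property `Q` -/
noncomputable def count (s : ℤ) (β : ℝ) (P : Polynomial ℤ) (N : ℕ) (Q : ℤ → Prop) : ℕ :=
  ((Icc 1 N).filter fun n : ℕ => Adm (s * (⌊β * ((P.eval (n : ℤ) : ℤ) : ℝ)⌋₊ : ℤ)) ∧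
    Q (s * (⌊β * ((P.eval (n : ℤ) : ℤ) : ℝ)⌋₊ : ℤ))).card

/-- the event for the finite sets `G`, `K`: the sequence is zero for the twists of `E^m` by `D`, `m ∈ G`, and not zero
for those with `m ∈ K` -/
def Pattern (G K : Finset ℤ) (D : ℤ) : Prop := (∀ m ∈ G, ZeroSeq (star m D)) ∧ ∀ m ∈ K, ¬ ZeroSeq (star m D)

theorem adm_zero : ¬ Adm 0 := fun h => not_squarefree_zero h.1

theorem count_eq (s : ℤ) (hs : s = 1 ∨ s = -1) (β : ℝ) (P : Polynomial ℤ) (N : ℕ) (Q : ℤ → Prop) :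
    count s β P N Q = cnS (fun D => 0 < s * D ∧ (Adm D ∧ Q D)) β P N := by
  classical
  rw [cnS_sign s hs (fun D => Adm D ∧ Q D) (fun h => adm_zero h.1)]
  unfold count
  refine congrArg _ ?_
  ext n
  simp only [mem_filter]

theorem nz_eq (s : ℤ) (Q : ℤ → Prop) (y : ℕ) :
    nz (fun D => 0 < s * D ∧ (Adm D ∧ Q D)) y = (MP_a3f657_nt.TrivialSelInfTwists.count s Q y : ℝ) := by
  unfold nz MP_a3f657_nt.TrivialSelInfTwists.count
  rw [← Nat.card_coe_set_eq]
  congr 1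
  refine Nat.card_congr (Equiv.subtypeEquivRight fun D => ?_)
  have h1 : |D| ≤ (y : ℤ) ↔ D.natAbs ≤ y := by
    rw [Int.abs_eq_natAbs]
    exact_mod_cast Iff.rfl
  rw [h1]
  constructor
  · rintro ⟨g1, g2, g3, g4⟩
    exact ⟨g1, g3, g2, g4⟩
  · rintro ⟨g1, g2, g3, g4⟩
    exact ⟨g1, g3, g2, g4⟩

theorem result (q : ℕ) (hq : 2 ≤ q) :
    ∃ c : ℝ, 0.4194 < c ∧ c < 0.4195 ∧
      Tendsto (fun n : ℕ => ∏ i ∈ range n, (1 - (1 / 2 : ℝ) ^ (2 * i + 1))) atTop (nhds c) ∧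
    ∃ E : Set ℝ, dimH E ≤ ENNReal.ofReal ((q : ℝ) / (q + 1 / (q * 2 ^ (q - 1)))) ∧ ∀ β : ℝ, 0 < β → β ∉ E →
      ∀ s : ℤ, (s = 1 ∨ s = -1) →
      ∀ G K : Finset ℤ, (∀ m ∈ G, Adm m) → (∀ m ∈ K, Adm m) → Disjoint G K →
        ∃ η : ℝ, 0 < η ∧ ∀ ε : ℝ, 0 < ε → ∀ᶠ N : ℕ in atTop, ∀ P : Polynomial ℤ, P.natDegree = q →
          0 < P.leadingCoeff → (∀ j, |((P.coeff j : ℤ) : ℝ)| ≤ (N : ℝ) ^ η) →
          |(count s β P N ZeroSeq : ℝ) - c * count s β P N (fun _ => True)| ≤ ε * count s β P N (fun _ => True) ∧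
          |(count s β P N (Pattern G K) : ℝ) - c ^ G.card * (1 - c) ^ K.card * count s β P N (fun _ => True)| ≤
            ε * count s β P N (fun _ => True) ∧
          (N : ℝ) ^ (1 - ε) ≤ count s β P N (fun _ => True) := by
  obtain ⟨-, -, c, hc1, hc2, hlim, hlaw⟩ := MP_a3f657_nt.TrivialSelInfTwists.result
  refine ⟨c, hc1, hc2, hlim, ?_⟩
  obtain ⟨E, hE, hT⟩ := ratio_one_sign (ι := Option (Finset ℤ × Finset ℤ)) q hq
    (fun i D => Adm D ∧ (match i with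
      | none => ZeroSeq D
      | some z => Pattern z.1 z.2 D)) (fun _ D => Adm D ∧ True)
    (fun i => ⟨fun h => adm_zero h.1, fun h => adm_zero h.1⟩)
  refine ⟨E, hE, fun β hβ hβE s hs G K hG hK hGK => ?_⟩
  obtain ⟨hz, hp⟩ := hlaw s hs
  have hbig : ∀ e : ℝ, 0 < e → ∀ᶠ y : ℕ in atTop, (y : ℝ) ^ (1 - e) ≤ nz (fun D => 0 < s * D ∧ (Adm D ∧ True)) y := by
    obtain ⟨-, a, X₀, ha, hlow⟩ := hp ∅ ∅ (fun m hm => absurd hm (notMem_empty m)) (fun m hm => absurd hm (notMem_empty m))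
      (disjoint_empty_right _)
    refine big_of_log _ ha (A := 5 / 8) (X₀ := X₀) fun X hX => ?_
    rw [nz_eq]
    refine (hlow X hX).trans ?_
    apply le_of_eq
    congr 2
    funext D
    simp
  obtain ⟨η1, hη1, h1⟩ := hT β hβ hβE none s hs
  obtain ⟨η2, hη2, h2⟩ := hT β hβ hβE (some (G, K)) s hs
  refine ⟨min η1 η2, by positivity, fun ε hε => ?_⟩
  have k1 := h1 c hbig (by
    refine hz.congr fun y => ?_
    show _ = nz (fun D => 0 < s * D ∧ (Adm D ∧ ZeroSeq D)) y / nz (fun D => 0 < s * D ∧ (Adm D ∧ True)) y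
    rw [nz_eq, nz_eq]
    rfl) ε hε
  have k2 := h2 (c ^ G.card * (1 - c) ^ K.card) hbig (by
    refine (hp G K hG hK hGK).1.congr fun y => ?_
    show _ = nz (fun D => 0 < s * D ∧ (Adm D ∧ Pattern G K D)) y / nz (fun D => 0 < s * D ∧ (Adm D ∧ True)) y
    rw [nz_eq, nz_eq]
    rfl) ε hε
  filter_upwards [k1, k2, eventually_ge_atTop 1] with N g1 g2 hN
  intro P hdeg hlead hco
  have hN1 : (1 : ℝ) ≤ N := by exact_mod_cast hN
  obtain ⟨j1, j2⟩ := g1 P hdeg hlead (fun j => (hco j).trans (Real.rpow_le_rpow_of_exponent_le hN1 (min_le_left _ _)))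
  obtain ⟨j3, -⟩ := g2 P hdeg hlead (fun j => (hco j).trans (Real.rpow_le_rpow_of_exponent_le hN1 (min_le_right _ _)))
  rw [count_eq s hs, count_eq s hs, count_eq s hs]
  exact ⟨j1, j3, j2⟩

end Pool.Agent.Results.MP_a3f657_nt.SelInfRealMultiples
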